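import Mathlib
import Pool.Agent.H432.BridgeC

/-!
# MP_699bc8_an: the Bridge Theorem for amenable monoid actions on compact abelian groups

Definitions used from `Pool.Agent.H432.BridgeB`:
* `IsFiniteOpenCover K 𝒰`: `𝒰` is a finite open cover of `K`;
* `coverNumber 𝒰`: the least size of a subcover of `𝒰`;
* `join γ F 𝒰`: the cover `⋁_{s ∈ F} γ(s)⁻¹(𝒰)`;
* `traj γ F X`: the trajectory `T_F(X) = ∑_{s ∈ F} X · s` in the dual group, `χ · s = χ ∘ γ(s)`
  (Mathlib writes the Pontryagin dual multiplicatively, so this is a product of sets).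
-/

set_option autoImplicit false
set_option linter.unusedSectionVars false

open Filter Topology

namespace Pool.Agent.Results.MP_699bc8_an.BridgeTheorem

open Pool.Agent.H432.Bridge

universe u v w

/-- A left Følner net of the monoid `S`: non-empty finite sets `F i`, indexed by a type with a
(proper) filter `l`, such that `|s F_i \ F_i| / |F_i| → 0` along `l` for every `s ∈ S`.  Nets are
the case `l = atTop` on a directed set. -/
def IsLeftFolner {S : Type v} [Monoid S] {ι : Type w} (l : Filter ι) (F : ι → Finset S) : Prop :=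
  (∀ i, (F i).Nonempty) ∧ ∀ s : S,
    Tendsto (fun i => (((fun t => s * t) '' (F i : Set S) \ (F i : Set S)).ncard : ℝ) /
      ((F i).card : ℝ)) l (𝓝 0)

/-- `log N(𝒰_F) / |F|`. -/
noncomputable def topQuot {S : Type v} {K : Type u} [CommGroup K] [TopologicalSpace K]
    (γ : S → K →ₜ* K) (𝒰 : Set (Set K)) (F : Finset S) : ℝ :=
  Real.log (coverNumber (join (fun s => γ s) F 𝒰) : ℝ) / (F.card : ℝ)

/-- `log |T_F(X)| / |F|`. -/
noncomputable def algQuot {S : Type v} {K : Type u} [CommGroup K] [TopologicalSpace K]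
    (γ : S → K →ₜ* K) (X : Finset (PontryaginDual K)) (F : Finset S) : ℝ :=
  Real.log ((traj γ F X).ncard : ℝ) / (F.card : ℝ)

lemma le_of_forall_add {x y : EReal} (h : ∀ ε : ℝ, 0 < ε → x ≤ y + (ε : EReal)) : x ≤ y := by
  induction y using EReal.rec with
  | bot =>
    have := h 1 one_pos
    rwa [EReal.bot_add] at this
  | top => exact le_top
  | coe r =>
    rw [← EReal.le_of_forall_lt_iff_le]
    intro z hz
    have hz' : r < z := by exact_mod_cast hz
    have := h (z - r) (by linarith)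
    rw [← EReal.coe_add] at this
    convert this using 2
    ring

lemma limsup_le_add {ι : Type w} (l : Filter ι) [l.NeBot] (a b : ι → ℝ) (ε : ℝ)
    (h : ∀ i, a i ≤ b i + ε) :
    limsup (fun i => (a i : EReal)) l ≤ limsup (fun i => (b i : EReal)) l + (ε : EReal) := by
  have h1 : limsup (fun i => (a i : EReal)) l ≤
      limsup ((fun i => (b i : EReal)) + fun _ => (ε : EReal)) l := by
    refine limsup_le_limsup (Eventually.of_forall fun i => ?_)
    simp only [Pi.add_apply]
    rw [← EReal.coe_add]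
    exact_mod_cast h i
  refine h1.trans ((EReal.limsup_add_le ?_ ?_).trans ?_)
  · right; rw [limsup_const]; exact EReal.coe_ne_top ε
  · right; rw [limsup_const]; exact EReal.coe_ne_bot ε
  · rw [limsup_const]

lemma liminf_le_add {ι : Type w} (l : Filter ι) [l.NeBot] (a b : ι → ℝ) (ε : ℝ)
    (h : ∀ i, a i ≤ b i + ε) :
    liminf (fun i => (a i : EReal)) l ≤ liminf (fun i => (b i : EReal)) l + (ε : EReal) := by
  have h1 : liminf (fun i => (a i : EReal)) l ≤
      liminf ((fun _ => (ε : EReal)) + fun i => (b i : EReal)) l := by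
    refine liminf_le_liminf (Eventually.of_forall fun i => ?_)
    simp only [Pi.add_apply]
    rw [← EReal.coe_add, add_comm]
    exact_mod_cast h i
  refine h1.trans ((EReal.liminf_add_le ?_ ?_).trans ?_)
  · left; rw [limsup_const]; exact EReal.coe_ne_bot ε
  · left; rw [limsup_const]; exact EReal.coe_ne_top ε
  · rw [limsup_const, add_comm]

section

variable {S : Type v} {K : Type u} [CommGroup K] [TopologicalSpace K] [IsTopologicalGroup K]
  [CompactSpace K] [T2Space K] (γ : S → K →ₜ* K)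

/-- For every finite non-empty `X` and `ε > 0` some finite open cover dominates `X` up to `ε`. -/
theorem alg_le_top (X : Finset (PontryaginDual K)) (hX : X.Nonempty) (ε : ℝ) (hε : 0 < ε) :
    ∃ 𝒰 : Set (Set K), IsFiniteOpenCover K 𝒰 ∧ ∀ F : Finset S, F.Nonempty →
      algQuot γ X F ≤ topQuot γ 𝒰 F + ε := by
  obtain ⟨𝒰, h𝒰, h⟩ := partA γ X hX ε hε
  refine ⟨𝒰, h𝒰, fun F hF => ?_⟩
  have hF0 : (0 : ℝ) < F.card := by exact_mod_cast hF.card_pos
  rw [algQuot, topQuot, div_add' _ _ _ hF0.ne']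
  exact div_le_div_of_nonneg_right (h F hF) hF0.le

/-- For every finite open cover and `ε > 0` some finite non-empty `X` dominates it up to `ε`. -/
theorem top_le_alg (𝒰 : Set (Set K)) (h𝒰 : IsFiniteOpenCover K 𝒰) (ε : ℝ) (hε : 0 < ε) :
    ∃ X : Finset (PontryaginDual K), X.Nonempty ∧ ∀ F : Finset S, F.Nonempty →
      topQuot γ 𝒰 F ≤ algQuot γ X F + ε := by
  obtain ⟨X, hX, h⟩ := partB γ 𝒰 h𝒰 ε hε
  refine ⟨X, hX, fun F hF => ?_⟩
  have hF0 : (0 : ℝ) < F.card := by exact_mod_cast hF.card_pos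
  rw [algQuot, topQuot, div_add' _ _ _ hF0.ne']
  exact div_le_div_of_nonneg_right (h F) hF0.le

theorem limsup_eq {ι : Type w} (l : Filter ι) [l.NeBot] (F : ι → Finset S)
    (hF : ∀ i, (F i).Nonempty) :
    (⨆ 𝒰 : {𝒰 : Set (Set K) // IsFiniteOpenCover K 𝒰},
        limsup (fun i => ((topQuot γ 𝒰.1 (F i) : ℝ) : EReal)) l) =
      ⨆ X : {X : Finset (PontryaginDual K) // X.Nonempty},
        limsup (fun i => ((algQuot γ X.1 (F i) : ℝ) : EReal)) l := by
  apply le_antisymm
  · refine iSup_le fun 𝒰 => le_of_forall_add fun ε hε => ?_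
    obtain ⟨X, hX, h⟩ := top_le_alg γ 𝒰.1 𝒰.2 ε hε
    refine (limsup_le_add l _ _ ε fun i => h (F i) (hF i)).trans ?_
    exact add_le_add_left (le_iSup (fun X : {X : Finset (PontryaginDual K) // X.Nonempty} =>
      limsup (fun i => ((algQuot γ X.1 (F i) : ℝ) : EReal)) l) ⟨X, hX⟩) _
  · refine iSup_le fun X => le_of_forall_add fun ε hε => ?_
    obtain ⟨𝒰, h𝒰, h⟩ := alg_le_top γ X.1 X.2 ε hε
    refine (limsup_le_add l _ _ ε fun i => h (F i) (hF i)).trans ?_
    exact add_le_add_left (le_iSup (fun 𝒰 : {𝒰 : Set (Set K) // IsFiniteOpenCover K 𝒰} =>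
      limsup (fun i => ((topQuot γ 𝒰.1 (F i) : ℝ) : EReal)) l) ⟨𝒰, h𝒰⟩) _

theorem liminf_eq {ι : Type w} (l : Filter ι) [l.NeBot] (F : ι → Finset S)
    (hF : ∀ i, (F i).Nonempty) :
    (⨆ 𝒰 : {𝒰 : Set (Set K) // IsFiniteOpenCover K 𝒰},
        liminf (fun i => ((topQuot γ 𝒰.1 (F i) : ℝ) : EReal)) l) =
      ⨆ X : {X : Finset (PontryaginDual K) // X.Nonempty},
        liminf (fun i => ((algQuot γ X.1 (F i) : ℝ) : EReal)) l := by
  apply le_antisymm
  · refine iSup_le fun 𝒰 => le_of_forall_add fun ε hε => ?_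
    obtain ⟨X, hX, h⟩ := top_le_alg γ 𝒰.1 𝒰.2 ε hε
    refine (liminf_le_add l _ _ ε fun i => h (F i) (hF i)).trans ?_
    exact add_le_add_left (le_iSup (fun X : {X : Finset (PontryaginDual K) // X.Nonempty} =>
      liminf (fun i => ((algQuot γ X.1 (F i) : ℝ) : EReal)) l) ⟨X, hX⟩) _
  · refine iSup_le fun X => le_of_forall_add fun ε hε => ?_
    obtain ⟨𝒰, h𝒰, h⟩ := alg_le_top γ X.1 X.2 ε hε
    refine (liminf_le_add l _ _ ε fun i => h (F i) (hF i)).trans ?_
    exact add_le_add_left (le_iSup (fun 𝒰 : {𝒰 : Set (Set K) // IsFiniteOpenCover K 𝒰} =>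
      liminf (fun i => ((topQuot γ 𝒰.1 (F i) : ℝ) : EReal)) l) ⟨𝒰, h𝒰⟩) _

end

/-- **Bridge Theorem for monoid actions on compact abelian groups.**

Let `S` be a cancellative monoid, `K` a compact Hausdorff abelian group and `γ` a left action of
`S` on `K` by continuous endomorphisms, and let `(F_i)` be a left Følner net of `S`.

* If the limits defining the two entropies exist along `(F_i)` (`a 𝒰 = lim_i log N(𝒰_{F_i}) / |F_i|`
  for every finite open cover `𝒰`, and `b X = lim_i log |T_{F_i}(X)| / |F_i|` for every finite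
  non-empty `X` in the dual group), then `h_top(γ) = sup_𝒰 a 𝒰` equals `h_alg(γ^) = sup_X b X`
  (as elements of `[-∞, ∞]`).
* Without any assumption on the existence of limits, the same equality holds with the limits
  replaced by upper limits, and with the limits replaced by lower limits. -/
theorem result {S : Type v} [Monoid S] [IsCancelMul S] {K : Type u} [CommGroup K]
    [TopologicalSpace K] [IsTopologicalGroup K] [CompactSpace K] [T2Space K]
    (γ : S → K →ₜ* K) (_hγ1 : ∀ x, γ 1 x = x) (_hγmul : ∀ s t x, γ (s * t) x = γ s (γ t x))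
    {ι : Type w} (l : Filter ι) [l.NeBot] (F : ι → Finset S) (hF : IsLeftFolner l F) :
    (∀ (a : Set (Set K) → ℝ) (b : Finset (PontryaginDual K) → ℝ),
        (∀ 𝒰, IsFiniteOpenCover K 𝒰 → Tendsto (fun i => topQuot γ 𝒰 (F i)) l (𝓝 (a 𝒰))) →
        (∀ X : Finset (PontryaginDual K), X.Nonempty →
          Tendsto (fun i => algQuot γ X (F i)) l (𝓝 (b X))) →
        (⨆ 𝒰 : {𝒰 : Set (Set K) // IsFiniteOpenCover K 𝒰}, ((a 𝒰.1 : ℝ) : EReal)) =
          ⨆ X : {X : Finset (PontryaginDual K) // X.Nonempty}, ((b X.1 : ℝ) : EReal)) ∧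
    (⨆ 𝒰 : {𝒰 : Set (Set K) // IsFiniteOpenCover K 𝒰},
        limsup (fun i => ((topQuot γ 𝒰.1 (F i) : ℝ) : EReal)) l) =
      (⨆ X : {X : Finset (PontryaginDual K) // X.Nonempty},
        limsup (fun i => ((algQuot γ X.1 (F i) : ℝ) : EReal)) l) ∧
    (⨆ 𝒰 : {𝒰 : Set (Set K) // IsFiniteOpenCover K 𝒰},
        liminf (fun i => ((topQuot γ 𝒰.1 (F i) : ℝ) : EReal)) l) =
      (⨆ X : {X : Finset (PontryaginDual K) // X.Nonempty},
        liminf (fun i => ((algQuot γ X.1 (F i) : ℝ) : EReal)) l) := by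
  refine ⟨?_, limsup_eq γ l F hF.1, liminf_eq γ l F hF.1⟩
  intro a b ha hb
  have h := limsup_eq γ l F hF.1
  have h1 : ∀ 𝒰 : {𝒰 : Set (Set K) // IsFiniteOpenCover K 𝒰},
      limsup (fun i => ((topQuot γ 𝒰.1 (F i) : ℝ) : EReal)) l = ((a 𝒰.1 : ℝ) : EReal) :=
    fun 𝒰 => (((continuous_coe_real_ereal.tendsto _).comp (ha 𝒰.1 𝒰.2))).limsup_eq
  have h2 : ∀ X : {X : Finset (PontryaginDual K) // X.Nonempty},
      limsup (fun i => ((algQuot γ X.1 (F i) : ℝ) : EReal)) l = ((b X.1 : ℝ) : EReal) :=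
    fun X => (((continuous_coe_real_ereal.tendsto _).comp (hb X.1 X.2))).limsup_eq
  simp_rw [h1, h2] at h
  exact h

end Pool.Agent.Results.MP_699bc8_an.BridgeTheorem
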